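import Mathlib.Combinatorics.SimpleGraph.Acyclic
import Mathlib.Combinatorics.SimpleGraph.Paths
import Mathlib.Data.Fintype.Vector
import Mathlib.Data.Set.Card
import Mathlib.Data.ENat.Lattice
import Mathlib.Analysis.SpecificLimits.Normed
import Mathlib.Analysis.SpecialFunctions.Pow.Real
import Mathlib.Tactic

/-!
# Exponential domination of bounded-degree trees

The complete 5-ary tree of height `h` has maximum degree at most `6`, at least `5 ^ h` vertices and
exponential domination number at most `2 ^ (2 h - 1)`.  Hence `γ_e(T) ≤ n ^ (log 4 / log 5)` for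
these trees, and the bound `γ_e(T) = Ω(n / log n)` fails for trees of maximum degree `6`.
-/

set_option autoImplicit false

namespace Pool.Agent.Results.MP_75fda7_co.FiveAryTree

/-- the distance `dist_{(G,S)}(u,v)`: the least length of a path from `u` to `v` such that exactly
one end vertex lies in `S` and no internal vertex lies in `S`; it is `⊤` if there is no such path -/
noncomputable def eDist {V : Type} (G : SimpleGraph V) (S : Set V) (u v : V) : ℕ∞ :=
  sInf {n | ∃ p : G.Walk u v, p.IsPath ∧ (({u, v} : Set V) ∩ S).ncard = 1 ∧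
    (∀ x ∈ p.support, x ≠ u → x ≠ v → x ∉ S) ∧ n = p.length}

/-- `(1/2) ^ (d - 1)`, with `(1/2) ^ ∞ = 0` -/
noncomputable def halfPow (d : ℕ∞) : ℝ := if d = ⊤ then 0 else (1 / 2 : ℝ) ^ ((d.toNat : ℤ) - 1)

/-- the weight `w_{(G,S)}(u)` -/
noncomputable def weight {V : Type} (G : SimpleGraph V) (S : Finset V) (u : V) : ℝ :=
  ∑ v ∈ S, halfPow (eDist G S u v)

/-- `S` is an exponential dominating set of `G` -/
def ExpDominating {V : Type} (G : SimpleGraph V) (S : Finset V) : Prop := ∀ u, 1 ≤ weight G S u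

/-- the exponential domination number -/
noncomputable def gammaE {V : Type} (G : SimpleGraph V) : ℕ :=
  sInf {k | ∃ S : Finset V, ExpDominating G S ∧ S.card = k}

/-! ### The complete 5-ary tree -/

/-- vertices: words of length at most `h` over a five letter alphabet -/
abbrev W (h : ℕ) : Type := {l : List (Fin 5) // l.length ≤ h}

/-- the complete 5-ary tree of height `h`: the neighbours of a nonempty word are its tail and the
words having it as tail -/
def tree (h : ℕ) : SimpleGraph (W h) where
  Adj x y := (∃ a, x.1 = a :: y.1) ∨ (∃ a, y.1 = a :: x.1)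
  symm := ⟨fun _ _ h => h.symm⟩
  loopless := ⟨by
    rintro x (⟨a, h⟩ | ⟨a, h⟩) <;>
      · have := congrArg List.length h
        simp at this⟩

variable {h : ℕ}

/-- the root -/
abbrev root (h : ℕ) : W h := ⟨[], Nat.zero_le _⟩

theorem toRoot (l : List (Fin 5)) : ∀ hl : l.length ≤ h,
    ∃ p : (tree h).Walk ⟨l, hl⟩ (root h), p.length = l.length ∧ ∀ x ∈ p.support, x.1 <:+ l := by
  induction l with
  | nil =>
    intro hl
    refine ⟨SimpleGraph.Walk.nil, rfl, ?_⟩
    intro x hx
    rw [SimpleGraph.Walk.support_nil, List.mem_singleton] at hx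
    rw [hx]
  | cons a l ih =>
    intro hl
    have hl' : l.length ≤ h := by
      rw [List.length_cons] at hl; omega
    obtain ⟨p, hp, hp2⟩ := ih hl'
    have hadj : (tree h).Adj ⟨a :: l, hl⟩ ⟨l, hl'⟩ := Or.inl ⟨a, rfl⟩
    refine ⟨SimpleGraph.Walk.cons hadj p, ?_, ?_⟩
    · rw [SimpleGraph.Walk.length_cons, hp, List.length_cons]
    · intro x hx
      rw [SimpleGraph.Walk.support_cons, List.mem_cons] at hx
      rcases hx with rfl | hx
      · exact List.suffix_rfl
      · exact (hp2 x hx).trans (List.suffix_cons a l)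

theorem exists_path (u v : W h) : ∃ p : (tree h).Walk u v, p.IsPath ∧ p.length ≤ 2 * h ∧
    ∀ x ∈ p.support, x.1 <:+ u.1 ∨ x.1 <:+ v.1 := by
  classical
  obtain ⟨p, hp, hp2⟩ := toRoot u.1 u.2
  obtain ⟨q, hq, hq2⟩ := toRoot v.1 v.2
  refine ⟨(p.append q.reverse).bypass, SimpleGraph.Walk.bypass_isPath _, ?_, ?_⟩
  · refine (SimpleGraph.Walk.length_bypass_le_length _).trans ?_
    rw [SimpleGraph.Walk.length_append, SimpleGraph.Walk.length_reverse, hp, hq]
    have := u.2
    have := v.2
    omega
  · intro x hx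
    have hx := SimpleGraph.Walk.support_bypass_subset_support _ hx
    rw [SimpleGraph.Walk.mem_support_append_iff, SimpleGraph.Walk.support_reverse,
      List.mem_reverse] at hx
    rcases hx with hx | hx
    · exact Or.inl (hp2 x hx)
    · exact Or.inr (hq2 x hx)

theorem connected (h : ℕ) : (tree h).Connected := by
  have : Nonempty (W h) := ⟨root h⟩
  refine ⟨fun u v => ?_⟩
  obtain ⟨p, -⟩ := exists_path u v
  exact ⟨p⟩

/-- words of length at most `h` sorted by length -/
def sigmaEquiv (h : ℕ) : W h ≃ Σ i : Fin (h + 1), List.Vector (Fin 5) i where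
  toFun l := ⟨⟨l.1.length, Nat.lt_succ_of_le l.2⟩, ⟨l.1, rfl⟩⟩
  invFun x := ⟨x.2.1, by rw [x.2.2]; exact Nat.le_of_lt_succ x.1.2⟩
  left_inv _ := rfl
  right_inv := by
    rintro ⟨⟨i, hi⟩, ⟨l, hl⟩⟩
    simp only at hl
    subst hl
    rfl

noncomputable instance : Fintype (W h) := Fintype.ofEquiv _ (sigmaEquiv h).symm

/-- the edges correspond to the non-root vertices -/
noncomputable def edgeEquiv (h : ℕ) : {x : W h // x ≠ root h} ≃ (tree h).edgeSet := by
  have hne : ∀ x : {x : W h // x ≠ root h}, x.1.1 ≠ [] := fun x hx => x.2 (Subtype.ext hx)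
  refine Equiv.ofBijective (fun x => ⟨s(x.1, ⟨x.1.1.tail, by
    have := x.1.2
    rw [List.length_tail]; omega⟩), ?_⟩) ⟨?_, ?_⟩
  · rw [SimpleGraph.mem_edgeSet]
    left
    obtain ⟨a, l, hal⟩ := List.exists_cons_of_ne_nil (hne x)
    exact ⟨a, by simp only [hal, List.tail_cons]⟩
  · intro x y hxy
    simp only [Subtype.mk.injEq, Sym2.eq_iff] at hxy
    rcases hxy with ⟨h1, -⟩ | ⟨h1, h2⟩
    · exact Subtype.ext h1
    · exfalso
      have e1 := congrArg (fun z : W h => z.1.length) h1
      have e2 := congrArg (fun z : W h => z.1.length) h2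
      simp only [List.length_tail] at e1 e2
      have h3 := List.length_pos_iff.2 (hne x)
      have h4 := List.length_pos_iff.2 (hne y)
      omega
  · rintro ⟨e, he⟩
    induction e using Sym2.ind with
    | _ x y =>
      rw [SimpleGraph.mem_edgeSet] at he
      rcases he with ⟨a, ha⟩ | ⟨a, ha⟩
      · refine ⟨⟨x, fun hx => by rw [hx] at ha; cases ha⟩, ?_⟩
        apply Subtype.ext
        have h1 : (⟨x.1.tail, by have := x.2; rw [List.length_tail]; omega⟩ : W h) = y :=
          Subtype.ext (by simp only [ha, List.tail_cons])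
        exact congrArg (fun z => s(x, z)) h1
      · refine ⟨⟨y, fun hx => by rw [hx] at ha; cases ha⟩, ?_⟩
        apply Subtype.ext
        have h1 : (⟨y.1.tail, by have := y.2; rw [List.length_tail]; omega⟩ : W h) = x :=
          Subtype.ext (by simp only [ha, List.tail_cons])
        exact (congrArg (fun z => s(y, z)) h1).trans Sym2.eq_swap

theorem isTree (h : ℕ) : (tree h).IsTree := by
  rw [SimpleGraph.isTree_iff_connected_and_card]
  refine ⟨connected h, ?_⟩
  rw [← Nat.card_congr (edgeEquiv h)]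
  have h1 : Nat.card {x : W h // x ≠ root h} = (({root h} : Set (W h))ᶜ).ncard := rfl
  have h2 := Set.ncard_add_ncard_compl ({root h} : Set (W h))
  rw [Set.ncard_singleton] at h2
  rw [h1]
  omega

theorem degree_le (v : W h) : ((tree h).neighborSet v).ncard ≤ 6 := by
  classical
  have hsub : (tree h).neighborSet v ⊆
      insert ⟨v.1.tail, by have := v.2; rw [List.length_tail]; omega⟩
        ((fun a : Fin 5 => if ha : (a :: v.1).length ≤ h then ⟨a :: v.1, ha⟩ else v) '' Set.univ) := by
    intro x hx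
    rw [SimpleGraph.mem_neighborSet] at hx
    rcases hx with ⟨a, ha⟩ | ⟨a, ha⟩
    · left
      exact Subtype.ext (by simp only [ha, List.tail_cons])
    · right
      refine ⟨a, trivial, ?_⟩
      have h1 : (a :: v.1).length ≤ h := by rw [← ha]; exact x.2
      simp only [h1, dite_true]
      exact Subtype.ext ha.symm
  refine (Set.ncard_le_ncard hsub (Set.toFinite _)).trans ?_
  refine (Set.ncard_insert_le _ _).trans ?_
  have h1 := Set.ncard_image_le (f := fun a : Fin 5 => if ha : (a :: v.1).length ≤ h then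
    (⟨a :: v.1, ha⟩ : W h) else v) (Set.toFinite (Set.univ : Set (Fin 5)))
  rw [Set.ncard_univ, Nat.card_eq_fintype_card, Fintype.card_fin] at h1
  omega

/-! ### Cardinalities -/

theorem card_W (h : ℕ) : Nat.card (W h) = ∑ i ∈ Finset.range (h + 1), 5 ^ i := by
  rw [Nat.card_congr (sigmaEquiv h), Nat.card_sigma, Finset.sum_range]
  apply Finset.sum_congr rfl
  intro i _
  rw [Nat.card_eq_fintype_card, card_vector, Fintype.card_fin]

theorem card_lower (h : ℕ) : 5 ^ h ≤ Nat.card (W h) := by
  rw [card_W, Finset.sum_range_succ]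
  omega

theorem card_upper (h : ℕ) : Nat.card (W h) ≤ 5 ^ (h + 1) := by
  rw [card_W]
  have : ∀ m, ∑ i ∈ Finset.range m, 5 ^ i ≤ 5 ^ m := by
    intro m
    induction m with
    | zero => simp
    | succ m ih => rw [Finset.sum_range_succ, pow_succ]; omega
  exact this _

theorem exists_leaves (h : ℕ) (hh : 1 ≤ h) :
    ∃ S : Finset (W h), (∀ x ∈ S, x.1.length = h) ∧ S.card = 2 ^ (2 * h - 1) := by
  classical
  let L : Finset (W h) := Finset.univ.image (fun w : List.Vector (Fin 5) h => ⟨w.1, w.2.le⟩)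
  have hL : L.card = 5 ^ h := by
    rw [Finset.card_image_of_injective, Finset.card_univ, card_vector, Fintype.card_fin]
    intro x y hxy
    simp only [Subtype.mk.injEq] at hxy
    exact Subtype.ext hxy
  have hle : 2 ^ (2 * h - 1) ≤ L.card := by
    rw [hL]
    calc 2 ^ (2 * h - 1) ≤ 2 ^ (2 * h) := Nat.pow_le_pow_right (by norm_num) (by omega)
      _ = 4 ^ h := by rw [pow_mul]; norm_num
      _ ≤ 5 ^ h := Nat.pow_le_pow_left (by norm_num) h
  obtain ⟨S, hS, hc⟩ := Finset.exists_subset_card_eq hle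
  refine ⟨S, fun x hx => ?_, hc⟩
  obtain ⟨w, _, rfl⟩ := Finset.mem_image.1 (hS hx)
  exact w.2

/-! ### Domination -/

theorem halfPow_lower {d : ℕ∞} {m : ℕ} (hd : d ≤ m) : (1 / 2 : ℝ) ^ ((m : ℤ) - 1) ≤ halfPow d := by
  have hne : d ≠ ⊤ := ne_top_of_le_ne_top (ENat.natCast_ne_top m) hd
  rw [halfPow, if_neg hne]
  apply zpow_le_zpow_right_of_le_one₀ (by norm_num) (by norm_num)
  have : d.toNat ≤ m := by
    have h1 := ENat.toNat_le_toNat hd (ENat.natCast_ne_top m)
    simpa using h1
  have : (d.toNat : ℤ) ≤ m := by exact_mod_cast this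
  omega

theorem halfPow_nonneg (d : ℕ∞) : 0 ≤ halfPow d := by
  unfold halfPow
  split_ifs
  · exact le_rfl
  · positivity

theorem expDominating (hh : 1 ≤ h) (S : Finset (W h)) (hS : ∀ x ∈ S, x.1.length = h)
    (hc : S.card = 2 ^ (2 * h - 1)) : ExpDominating (tree h) S := by
  classical
  intro u
  unfold weight
  by_cases hu : u ∈ S
  · have h1 : halfPow (eDist (tree h) S u u) ≤ ∑ v ∈ S, halfPow (eDist (tree h) S u v) :=
      Finset.single_le_sum (f := fun v => halfPow (eDist (tree h) S u v))
        (fun _ _ => halfPow_nonneg _) hu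
    refine le_trans ?_ h1
    have h2 : eDist (tree h) S u u ≤ ((0 : ℕ) : ℕ∞) := by
      apply sInf_le
      refine ⟨SimpleGraph.Walk.nil, SimpleGraph.Walk.IsPath.nil, ?_, ?_, ?_⟩
      · rw [Set.pair_eq_singleton, Set.inter_eq_left.2 (by simpa using hu), Set.ncard_singleton]
      · intro x hx hxu
        rw [SimpleGraph.Walk.support_nil, List.mem_singleton] at hx
        exact absurd hx hxu
      · simp
    refine le_trans ?_ (halfPow_lower h2)
    norm_num
  · have h1 : ∀ v ∈ S, (1 / 2 : ℝ) ^ (((2 * h : ℕ) : ℤ) - 1) ≤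
        halfPow (eDist (tree h) S u v) := by
      intro v hv
      apply halfPow_lower
      obtain ⟨p, hp, hlen, hsup⟩ := exists_path u v
      refine le_trans (sInf_le (a := ((p.length : ℕ) : ℕ∞)) ⟨p, hp, ?_, ?_, rfl⟩) ?_
      · have : ({u, v} : Set (W h)) ∩ (S : Set (W h)) = {v} := by
          ext x
          simp only [Set.mem_inter_iff, Set.mem_insert_iff, Set.mem_singleton_iff,
            Finset.mem_coe]
          constructor
          · rintro ⟨rfl | rfl, hx⟩
            · exact absurd hx hu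
            · rfl
          · rintro rfl
            exact ⟨Or.inr rfl, hv⟩
        rw [this, Set.ncard_singleton]
      · intro x hx hxu hxv hxS
        have hxl := hS x hxS
        rcases hsup x hx with h2 | h2
        · apply hxu
          apply Subtype.ext
          apply h2.eq_of_length
          have h3 := h2.length_le
          have := u.2
          omega
        · apply hxv
          apply Subtype.ext
          apply h2.eq_of_length
          have h3 := h2.length_le
          have := v.2
          omega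
      · exact_mod_cast hlen
    have h2 := Finset.sum_le_sum h1
    refine le_trans (le_of_eq ?_) h2
    rw [Finset.sum_const, hc, nsmul_eq_mul]
    have e : ((2 * h : ℕ) : ℤ) - 1 = ((2 * h - 1 : ℕ) : ℤ) := by omega
    rw [e, zpow_natCast]
    push_cast
    rw [← mul_pow]
    norm_num

theorem gammaE_le (hh : 1 ≤ h) : gammaE (tree h) ≤ 2 ^ (2 * h - 1) := by
  obtain ⟨S, hS, hc⟩ := exists_leaves h hh
  exact Nat.sInf_le ⟨S, expDominating hh S hS hc, hc⟩

theorem two_pow_le (h : ℕ) : ((2 ^ (2 * h - 1) : ℕ) : ℝ) ≤ 4 ^ h := by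
  have : 2 ^ (2 * h - 1) ≤ 4 ^ h := by
    calc 2 ^ (2 * h - 1) ≤ 2 ^ (2 * h) := Nat.pow_le_pow_right (by norm_num) (by omega)
      _ = 4 ^ h := by rw [pow_mul]; norm_num
  exact_mod_cast this

theorem tendsto_zero : Filter.Tendsto
    (fun h => (gammaE (tree h) : ℝ) * Real.log (Nat.card (W h)) / Nat.card (W h))
    Filter.atTop (nhds 0) := by
  have h1 : Filter.Tendsto (fun h : ℕ => Real.log 5 * ((h : ℝ) * (4 / 5) ^ h + (4 / 5) ^ h))
      Filter.atTop (nhds 0) := by
    have e1 := tendsto_self_mul_const_pow_of_abs_lt_one (r := (4 / 5 : ℝ))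
      (by rw [abs_lt]; constructor <;> norm_num)
    have e2 := tendsto_pow_atTop_nhds_zero_of_lt_one (r := (4 / 5 : ℝ)) (by norm_num) (by norm_num)
    have e3 := (e1.add e2).const_mul (Real.log 5)
    simpa using e3
  refine squeeze_zero' ?_ ?_ h1
  · filter_upwards with h
    have : (0 : ℝ) ≤ Real.log (Nat.card (W h)) := Real.log_natCast_nonneg _
    positivity
  · filter_upwards [Filter.eventually_ge_atTop 1] with h hh
    have hn : (5 : ℝ) ^ h ≤ Nat.card (W h) := by exact_mod_cast card_lower h
    have hn' : (Nat.card (W h) : ℝ) ≤ 5 ^ (h + 1) := by exact_mod_cast card_upper h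
    have h5 : (0 : ℝ) < 5 ^ h := by positivity
    have hlog : Real.log (Nat.card (W h)) ≤ (h + 1) * Real.log 5 := by
      calc Real.log (Nat.card (W h)) ≤ Real.log (5 ^ (h + 1)) :=
            Real.log_le_log (lt_of_lt_of_le h5 hn) hn'
        _ = (h + 1) * Real.log 5 := by rw [Real.log_pow]; push_cast; ring
    have hlog0 : (0 : ℝ) ≤ Real.log (Nat.card (W h)) := Real.log_natCast_nonneg _
    have hg : (gammaE (tree h) : ℝ) ≤ 4 ^ h := by
      refine le_trans ?_ (two_pow_le h)
      exact_mod_cast gammaE_le hh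
    calc (gammaE (tree h) : ℝ) * Real.log (Nat.card (W h)) / Nat.card (W h)
        ≤ 4 ^ h * ((h + 1) * Real.log 5) / 5 ^ h := by
          apply div_le_div₀ _ _ h5 hn
          · have : 0 ≤ Real.log 5 := Real.log_nonneg (by norm_num)
            positivity
          · apply mul_le_mul hg hlog hlog0 (by positivity)
      _ = Real.log 5 * ((h : ℝ) * (4 / 5) ^ h + (4 / 5) ^ h) := by
          rw [div_pow]; field_simp

theorem rpow_bound (hh : 1 ≤ h) :
    (gammaE (tree h) : ℝ) ≤ (Nat.card (W h) : ℝ) ^ (Real.log 4 / Real.log 5) := by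
  have hn : (5 : ℝ) ^ h ≤ Nat.card (W h) := by exact_mod_cast card_lower h
  have hg : (gammaE (tree h) : ℝ) ≤ 4 ^ h := by
    refine le_trans ?_ (two_pow_le h)
    exact_mod_cast gammaE_le hh
  have h5 : 0 < Real.log 5 := Real.log_pos (by norm_num)
  have h4 : 0 < Real.log 4 := Real.log_pos (by norm_num)
  refine hg.trans ?_
  calc (4 : ℝ) ^ h = ((5 : ℝ) ^ (Real.log 4 / Real.log 5)) ^ h := by
        congr 1
        rw [Real.rpow_def_of_pos (by norm_num), mul_div_cancel₀ _ h5.ne', Real.exp_log (by norm_num)]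
    _ = ((5 : ℝ) ^ h) ^ (Real.log 4 / Real.log 5) := by
        rw [← Real.rpow_natCast, ← Real.rpow_natCast, ← Real.rpow_mul (by norm_num),
          ← Real.rpow_mul (by norm_num), mul_comm]
    _ ≤ _ := Real.rpow_le_rpow (by positivity) hn (by positivity)

/-- The complete 5-ary trees `tree h` have maximum degree at most `6`, at least `5 ^ h` vertices
and exponential domination number at most `2 ^ (2 h - 1)`, hence at most `n ^ (log 4 / log 5)`;
in particular `γ_e · log n / n → 0` along them, and the statement of Q1 fails for `Δ = 6`. -/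
theorem result :
    (∀ h : ℕ, 1 ≤ h → (tree h).IsTree ∧ (∀ v, ((tree h).neighborSet v).ncard ≤ 6) ∧
      5 ^ h ≤ Nat.card (W h) ∧ gammaE (tree h) ≤ 2 ^ (2 * h - 1) ∧
      (gammaE (tree h) : ℝ) ≤ (Nat.card (W h) : ℝ) ^ (Real.log 4 / Real.log 5)) ∧
    Filter.Tendsto (fun h => (gammaE (tree h) : ℝ) * Real.log (Nat.card (W h)) / Nat.card (W h))
      Filter.atTop (nhds 0) ∧
    ¬ (∀ Δ : ℕ, ∃ c : ℝ, 0 < c ∧ ∀ (V : Type) [Finite V] (G : SimpleGraph V), G.IsTree →
      (∀ v, (G.neighborSet v).ncard ≤ Δ) → 2 ≤ Nat.card V →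
        c * (Nat.card V / Real.log (Nat.card V)) ≤ gammaE G) := by
  refine ⟨fun h hh => ⟨isTree h, degree_le, card_lower h, gammaE_le hh, rpow_bound hh⟩,
    tendsto_zero, fun hall => ?_⟩
  obtain ⟨c, hc, hall⟩ := hall 6
  have h1 : ∀ᶠ h in Filter.atTop,
      (gammaE (tree h) : ℝ) * Real.log (Nat.card (W h)) / Nat.card (W h) < c :=
    tendsto_zero.eventually (gt_mem_nhds hc)
  obtain ⟨h, hlt, hh⟩ := (h1.and (Filter.eventually_ge_atTop 1)).exists
  have hcard : 5 ≤ Nat.card (W h) := le_trans
    (by calc 5 = 5 ^ 1 := rfl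
          _ ≤ 5 ^ h := Nat.pow_le_pow_right (by norm_num) hh) (card_lower h)
  have h2 := hall (W h) (tree h) (isTree h) degree_le (by omega)
  have hn : (1 : ℝ) < Nat.card (W h) := by
    have : 1 < Nat.card (W h) := by omega
    exact_mod_cast this
  have hlog : 0 < Real.log (Nat.card (W h)) := Real.log_pos hn
  rw [div_lt_iff₀ (by linarith)] at hlt
  rw [mul_div_assoc', div_le_iff₀ hlog] at h2
  linarith

end Pool.Agent.Results.MP_75fda7_co.FiveAryTree
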